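import Pool.Agent.E8helper24.PG.Fin

set_option autoImplicit false

/-!
# Orderings of consecutive prime gaps with the right order of frequency

For every ordering of three consecutive prime gaps, every pattern of rises and falls of four
consecutive prime gaps, and twelve orderings of `k >= 4` consecutive gaps, and for every `K`: at least
`c (log x) ^ k` vectors `h` with entries between `K log x` and `M log x`, ordered in this way and even
with `K h i <= h j` whenever the entry number `i` has to be smaller than the entry number `j`, are the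
vector of `k` successive gaps of at least `c (1 + 𝔖 h) x / (log x) ^ (k + 1)` strings of consecutive
primes up to `x`, for all large `x`.

Method.  The new input is a positive proportion theorem for many classes of short clusters
(`Pool.Agent.E8helper24.PG.ppg`): given `T` classes of `K >= 8 T` intervals of length `ε log X`, for a
positive proportion of the integers `n` in `[X, 2 X)` every shifted interval contains at most one
prime, there is no other prime in the window, and the primes hit a positive proportion (not depending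
on `T`) of the classes.  It is combined with the forced order patterns of `Pool.Agent.TH29.GO`, and
with the upper bound sieve and the second moment of the singular series.
-/

open Finset

namespace Pool.Agent.Results.MP_3ec731_nt.FrequentGapOrdersH24

/-- the pattern `{0, h 0, h 0 + h 1, …}` of the primes whose successive gaps are the entries of `h` -/
def pattern {k : ℕ} (h : Fin k → ℕ) : Finset ℕ :=
  (univ : Finset (Fin (k + 1))).image (fun i : Fin (k + 1) => ∑ j : Fin k, if (j : ℕ) < (i : ℕ) then h j else 0)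

/-- the number of residue classes modulo `p` occupied by `T` -/
def nu (T : Finset ℕ) (p : ℕ) : ℕ := (T.image (· % p)).card

/-- the factor at `p` of the singular series -/
noncomputable def loc (T : Finset ℕ) (p : ℕ) : ℝ :=
  (1 - (nu T p : ℝ) / p) / (1 - 1 / (p : ℝ)) ^ T.card

/-- the singular series of `T` -/
noncomputable def 𝔖 (T : Finset ℕ) : ℝ := ∏' p : Nat.Primes, loc T p

/-- the number of the strings of `k + 1` consecutive primes up to `x` whose vector of gaps is `h` -/
noncomputable def count {k : ℕ} (x : ℕ) (h : Fin k → ℕ) : ℕ :=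
  Set.ncard {n : ℕ | Nat.nth Nat.Prime (n + k) ≤ x ∧
    ∀ i : Fin k, Nat.nth Nat.Prime (n + i + 1) = Nat.nth Nat.Prime (n + i) + h i}

/-- `Frequent lt`: for every `K` there are `c > 0`, `M`, `x₀` such that for all `x ≥ x₀` at least
`c (log x) ^ k` vectors `h` of `k` natural numbers satisfy

* `K log x ≤ h i ≤ M log x` for all `i`,
* `K h i ≤ h j` for all `i`, `j` with `lt i j`,
* at least `c (1 + 𝔖 (pattern h)) x / (log x) ^ (k + 1)` strings of `k + 1` consecutive primes up to
  `x` have the vector of gaps `h`. -/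
def Frequent {k : ℕ} (lt : Fin k → Fin k → Prop) : Prop :=
  ∀ K : ℝ, ∃ c : ℝ, 0 < c ∧ ∃ M : ℝ, ∃ x₀ : ℕ, ∀ x : ℕ, x₀ ≤ x →
    c * Real.log x ^ k ≤ (Set.ncard {h : Fin k → ℕ |
      (∀ i, K * Real.log x ≤ h i ∧ (h i : ℝ) ≤ M * Real.log x) ∧
      (∀ i j : Fin k, lt i j → K * h i ≤ h j) ∧
      c * (1 + 𝔖 (pattern h)) * (x / Real.log x ^ (k + 1)) ≤ count x h} : ℝ)

/-- Six orderings of `k` gaps: the gap number `i < k` has the rank `o i` among the `k` gaps.
In words, with ranks counted from `1`: `1, …, k`; `1, …, k-2, k, k-1`; `k-2, …, 1, k, k-1`;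
`2, …, k, 1`; `k-1, …, 1, k`; `1, k, 2, …, k-1`. -/
def orders (k : ℕ) : List (ℕ → ℕ) :=
  [fun i => i,
   fun i => if i + 2 < k then i else 2 * k - 3 - i,
   fun i => if i + 2 < k then k - 3 - i else 2 * k - 3 - i,
   fun i => if i + 1 < k then i + 1 else 0,
   fun i => if i + 1 < k then k - 2 - i else k - 1,
   fun i => if i = 0 then 0 else if i = 1 then k - 1 else i - 1]

open Pool.Agent.TH29.GO Pool.Agent.H387R2 Pool.Agent.R527.LV Pool.Agent.E8helper24.PG

theorem count_eq {k : ℕ} (x : ℕ) (h : Fin k → ℕ) : count x h = cnt x h := by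
  classical
  unfold count cnt
  rw [← Set.ncard_coe_finset]
  congr 1
  ext n
  simp only [Set.mem_ofPred_eq, coe_filter, mem_range]
  constructor
  · rintro ⟨h1, h2⟩
    refine ⟨?_, h1, h2⟩
    have h3 : Nat.nth Nat.Prime n ≤ Nat.nth Nat.Prime (n + k) :=
      Nat.nth_monotone Nat.infinite_setOfPred_prime (by omega)
    by_contra hcon
    rw [not_lt] at hcon
    have h4 : Nat.count Nat.Prime (x + 1) ≤ n := by
      simpa [Nat.primeCounting, Nat.primeCounting'] using hcon
    have h5 : x + 1 ≤ Nat.nth Nat.Prime n :=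
      (Nat.count_le_iff_le_nth Nat.infinite_setOfPred_prime).1 h4
    omega
  · rintro ⟨_, h1, h2⟩
    exact ⟨h1, h2⟩

/-- the deduction from forced patterns -/
theorem freq_of {k : ℕ} {σ : ℕ → ℕ} (hF : Forces 40 k σ) (lt : Fin k → Fin k → Prop)
    (hlt : ∀ i j, lt i j → σ i < σ j) : Frequent lt := by
  classical
  intro K
  obtain ⟨K', hK'⟩ : ∃ K' : ℝ, K' = max K 1 := ⟨_, rfl⟩
  have hKK' : K ≤ K' := hK' ▸ le_max_left _ _
  have hK'1 : 1 ≤ K' := hK' ▸ le_max_right _ _
  obtain ⟨c₁, hc₁, N₀, hidx⟩ := forced_idx hF (2 * K')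
  obtain ⟨c, hc, M, x₀, hvec⟩ := vec_index k K' c₁ (by linarith) hc₁
  have hpi : ∀ᶠ x : ℕ in Filter.atTop, N₀ ≤ Nat.primeCounting x - k := by
    have h1 : Filter.Tendsto (fun x : ℕ => Nat.primeCounting x - k) Filter.atTop Filter.atTop := by
      have h2 := Nat.tendsto_primeCounting
      exact (Filter.tendsto_sub_atTop_nat k).comp h2
    exact h1.eventually_ge_atTop N₀
  obtain ⟨x₁, hx₁⟩ := Filter.eventually_atTop.1 hpi
  refine ⟨c, hc, max M 0, max (max x₀ x₁) 1, fun x hx => ?_⟩
  have hx1 : 1 ≤ x := le_trans (le_max_right _ _) hx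
  have hL : 0 ≤ Real.log (x : ℝ) := Real.log_nonneg (by exact_mod_cast hx1)
  have h1 := hvec x (((le_max_left _ _).trans (le_max_left _ _)).trans hx)
    (fun j => ∀ u v : ℕ, u < k → v < k → σ u < σ v → 2 * K' * gp' (j + u) ≤ gp' (j + v))
    (fun h => ∀ i j : Fin k, σ i < σ j → K' * (h i : ℝ) ≤ h j) (by
      intro j hj u v huv
      have h2 := hj u v u.2 v.2 huv
      have hgp : ∀ l, 0 ≤ gp' l := by
        intro l
        unfold gp'
        have : P l ≤ P (l + 1) := P_strictMono.monotone (by omega)
        have : (P l : ℝ) ≤ P (l + 1) := by exact_mod_cast this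
        have e1 : (Pool.Agent.H361R2.PP.P l : ℝ) = P l := rfl
        have e2 : (Pool.Agent.H361R2.PP.P (l + 1) : ℝ) = P (l + 1) := rfl
        rw [e1, e2]
        linarith
      have hcast : ∀ l : ℕ, ((P (l + 1) - P l : ℕ) : ℝ) = gp' l := by
        intro l
        have : P l ≤ P (l + 1) := P_strictMono.monotone (by omega)
        rw [Nat.cast_sub this]
        rfl
      have e1 : ((P (j + u + 1) - P (j + u) : ℕ) : ℝ) = gp' (j + u) := hcast _
      have e2 : ((P (j + v + 1) - P (j + v) : ℕ) : ℝ) = gp' (j + v) := hcast _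
      rw [e1, e2]
      have h3 : K' * gp' (j + u) ≤ 2 * K' * gp' (j + u) :=
        mul_le_mul_of_nonneg_right (by linarith) (hgp _)
      linarith) (by
      have h2 := hidx (Nat.primeCounting x - k)
        (hx₁ x (((le_max_right _ _).trans (le_max_left _ _)).trans hx))
      refine h2.trans ?_
      apply Nat.cast_le.2
      apply card_le_card
      intro m hm
      rw [mem_filter] at hm ⊢
      exact ⟨hm.1, hm.2.1, hm.2.2⟩)
  refine h1.trans ?_
  rw [← Set.ncard_coe_finset]
  have hfin : Set.Finite {h : Fin k → ℕ |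
      (∀ i, K * Real.log x ≤ h i ∧ (h i : ℝ) ≤ max M 0 * Real.log x) ∧
      (∀ i j : Fin k, lt i j → K * h i ≤ h j) ∧
      c * (1 + 𝔖 (pattern h)) * (x / Real.log x ^ (k + 1)) ≤ count x h} := by
    apply (Fintype.piFinset (fun _ : Fin k => Finset.range (⌊max M 0 * Real.log x⌋₊ + 1))).finite_toSet.subset
    intro h hh
    rw [Set.mem_ofPred_eq] at hh
    rw [mem_coe, Fintype.mem_piFinset]
    intro i
    rw [mem_range, Nat.lt_succ_iff]
    exact Nat.le_floor (hh.1 i).2
  refine Nat.cast_le.2 (Set.ncard_le_ncard ?_ hfin)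
  intro h hh
  obtain ⟨h2, ⟨h3, h4⟩, h5⟩ := mem_filter_inst.1 (mem_coe.1 hh)
  rw [mem_box] at h2
  rw [Set.mem_ofPred_eq]
  refine ⟨fun i => ⟨?_, ?_⟩, fun i j hij => ?_, ?_⟩
  · exact (mul_le_mul_of_nonneg_right hKK' hL).trans (h3 i)
  · have h6 := (h2 i).2
    have h7 : (1 : ℕ) ≤ ⌊M * Real.log x⌋₊ := (h2 i).1.trans h6
    have h8 : 0 ≤ M * Real.log x := by
      by_contra hcon
      rw [not_le] at hcon
      rw [Nat.floor_of_nonpos hcon.le] at h7
      omega
    have h9 : (h i : ℝ) ≤ ⌊M * Real.log x⌋₊ := by exact_mod_cast h6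
    exact (h9.trans (Nat.floor_le h8)).trans (mul_le_mul_of_nonneg_right (le_max_left _ _) hL)
  · exact (mul_le_mul_of_nonneg_right hKK' (Nat.cast_nonneg _)).trans (h4 i j (hlt i j hij))
  · rw [count_eq]
    exact h5

theorem forces_orders (k : ℕ) (hk : 3 ≤ k) : ∀ o ∈ orders k, Forces 40 k o := by
  intro o ho
  simp only [orders, List.mem_cons, List.not_mem_nil, or_false] at ho
  rcases ho with rfl | rfl | rfl | rfl | rfl | rfl
  · -- increasing
    refine (forces1 40 (k - 1) (by omega)).restrict (k' := k) (by omega) ?_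
    intro i j hi hj hij
    unfold pat1
    split_ifs <;> omega
  · refine (forces1 40 (k - 2) (by omega)).restrict (k' := k) (by omega) ?_
    intro i j hi hj hij
    unfold pat1
    split_ifs at hij ⊢ <;> omega
  · refine (forces2 40 (k - 2) (by omega)).restrict (k' := k) (by omega) ?_
    intro i j hi hj hij
    unfold pat2
    split_ifs at hij ⊢ <;> omega
  · refine (forces3 40 (k - 1) (by omega)).restrict (k' := k) (by omega) ?_
    intro i j hi hj hij
    unfold pat3
    split_ifs at hij ⊢ <;> omega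
  · refine (forces2 40 (k - 1) (by omega)).restrict (k' := k) (by omega) ?_
    intro i j hi hj hij
    unfold pat2
    split_ifs at hij ⊢ <;> omega
  · refine (forces4 40 (k - 2) (by omega)).restrict (k' := k) (by omega) ?_
    intro i j hi hj hij
    unfold pat4
    split_ifs at hij ⊢ <;> omega

theorem forces_mirror (k : ℕ) (hk : 3 ≤ k) : ∀ o ∈ orders k, Forces 40 k (fun i => o (k - 1 - i)) :=
  fun o ho => (forces_orders k hk o ho).mirror fun _ _ => rfl

/-- Orderings of consecutive prime gaps with the right order of frequency, see `Frequent`.  For every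
`k ≥ 3` the six orderings `orders k` of `k` consecutive gaps, and their reversals, are frequent (twelve
orderings if `k ≥ 4`).  In particular every ordering of three consecutive gaps is frequent, and every
pattern of rises (`ε l = true`) and falls (`ε l = false`) of four consecutive gaps is frequent. -/
theorem result :
    (∀ k : ℕ, 3 ≤ k → ∀ o ∈ orders k, Frequent (fun i j : Fin k => o i < o j) ∧
      Frequent (fun i j : Fin k => o (k - 1 - i) < o (k - 1 - j))) ∧
    (∀ σ : Equiv.Perm (Fin 3), Frequent (fun i j : Fin 3 => σ i < σ j)) ∧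
    (∀ ε : Fin 3 → Bool, Frequent (fun i j : Fin 4 => ∃ l : Fin 3,
      (ε l = true ∧ i = l.castSucc ∧ j = l.succ) ∨
        (ε l = false ∧ i = l.succ ∧ j = l.castSucc))) := by
  refine ⟨?_, ?_, ?_⟩
  · intro k hk o ho
    exact ⟨freq_of (forces_orders k hk o ho) _ fun i j h => h,
      freq_of (forces_mirror k hk o ho) _ fun i j h => h⟩
  · intro σ
    have h3 := forces_orders 3 le_rfl
    have h3' := forces_mirror 3 le_rfl
    simp only [orders, List.forall_mem_cons, List.not_mem_nil, false_imp_iff, implies_true,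
      and_true] at h3 h3'
    obtain ⟨f1, f2, f3, f4, f5, f6⟩ := h3
    obtain ⟨g1, g2, g3, g4, g5, g6⟩ := h3'
    have key : (∀ i j : Fin 3, σ i < σ j → (i : ℕ) < j) ∨
        (∀ i j : Fin 3, σ i < σ j → (if (i : ℕ) + 2 < 3 then (i : ℕ) else 2 * 3 - 3 - i) <
          (if (j : ℕ) + 2 < 3 then (j : ℕ) else 2 * 3 - 3 - j)) ∨
        (∀ i j : Fin 3, σ i < σ j → (if (i : ℕ) + 1 < 3 then (i : ℕ) + 1 else 0) <
          (if (j : ℕ) + 1 < 3 then (j : ℕ) + 1 else 0)) ∨
        (∀ i j : Fin 3, σ i < σ j → (if (i : ℕ) + 1 < 3 then 3 - 2 - (i : ℕ) else 3 - 1) <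
          (if (j : ℕ) + 1 < 3 then 3 - 2 - (j : ℕ) else 3 - 1)) ∨
        (∀ i j : Fin 3, σ i < σ j → 3 - 1 - (i : ℕ) < 3 - 1 - j) ∨
        (∀ i j : Fin 3, σ i < σ j →
          (if 3 - 1 - (i : ℕ) + 1 < 3 then 3 - 2 - (3 - 1 - (i : ℕ)) else 3 - 1) <
          (if 3 - 1 - (j : ℕ) + 1 < 3 then 3 - 2 - (3 - 1 - (j : ℕ)) else 3 - 1)) := by
      revert σ
      decide
    rcases key with h | h | h | h | h | h
    · exact freq_of f1 _ h
    · exact freq_of f2 _ h
    · exact freq_of f4 _ h
    · exact freq_of f5 _ h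
    · exact freq_of g1 _ h
    · exact freq_of g5 _ h
  · intro ε
    have h4 := forces_orders 4 (by norm_num)
    have h4' := forces_mirror 4 (by norm_num)
    simp only [orders, List.forall_mem_cons, List.not_mem_nil, false_imp_iff, implies_true,
      and_true] at h4 h4'
    obtain ⟨f1, f2, f3, f4, f5, f6⟩ := h4
    obtain ⟨g1, g2, g3, g4, g5, g6⟩ := h4'
    have red : ∀ {τ : ℕ → ℕ}, Forces 40 4 τ → (∀ l : Fin 3, (ε l = true → τ (l : ℕ) < τ ((l : ℕ) + 1)) ∧
        (ε l = false → τ ((l : ℕ) + 1) < τ (l : ℕ))) →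
        Frequent (fun i j : Fin 4 => ∃ l : Fin 3,
          (ε l = true ∧ i = l.castSucc ∧ j = l.succ) ∨
            (ε l = false ∧ i = l.succ ∧ j = l.castSucc)) := by
      intro τ hF hl
      refine freq_of hF _ ?_
      rintro i j ⟨l, ⟨h1, rfl, rfl⟩ | ⟨h1, rfl, rfl⟩⟩
      · exact (hl l).1 h1
      · exact (hl l).2 h1
    rcases h0 : ε 0 with _ | _ <;> rcases h1 : ε 1 with _ | _ <;> rcases h2 : ε 2 with _ | _
    · -- > > >
      refine red g1 fun l => ?_
      fin_cases l <;> simp [h0, h1, h2]
    · -- > > <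
      refine red f5 fun l => ?_
      fin_cases l <;> simp [h0, h1, h2]
    · -- > < >
      refine red f3 fun l => ?_
      fin_cases l <;> simp [h0, h1, h2]
    · -- > < <
      refine red g5 fun l => ?_
      fin_cases l <;> simp [h0, h1, h2]
    · -- < > >
      refine red g4 fun l => ?_
      fin_cases l <;> simp [h0, h1, h2]
    · -- < > <
      refine red g3 fun l => ?_
      fin_cases l <;> simp [h0, h1, h2]
    · -- < < >
      refine red f2 fun l => ?_
      fin_cases l <;> simp [h0, h1, h2]
    · -- < < <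
      refine red f1 fun l => ?_
      fin_cases l <;> simp [h0, h1, h2]

end Pool.Agent.Results.MP_3ec731_nt.FrequentGapOrdersH24
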