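import Pool.Agent.E8helper24.PG.PermIdx
import Pool.Agent.E8helper24.PG.Asym

set_option autoImplicit false

/-!
# Many orders of `k` consecutive prime gaps occur with the right order of frequency

For every `k` and `K` there are `c > 0`, `M`, `x₀` such that for every `x ≥ x₀` at least
`k! exp (-150 k sqrt (log k))` of the `k!` orders `π` are frequent at `x`: at least `c (log x) ^ k`
vectors `h` with entries between `K log x` and `M log x` which are ordered like `π` are the vector of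
`k` successive gaps of at least `c (1 + 𝔖 h) x / (log x) ^ (k + 1)` strings of consecutive primes up to
`x`.

Method.  Positive proportion theorem for many classes of short clusters
(`Pool.Agent.E8helper24.PG.ppg`), with a functional which bounds the number of repeated hits of a
class, the positions and the counting of permutations of `Pool.Agent.TH779.Ord`, a pigeonhole
principle at every `x`, and the upper bound sieve with the second moment of the singular series.
-/

open Finset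

namespace Pool.Agent.Results.MP_3ec731_nt.FrequentOrdinalsH24

/-- the pattern `{0, h 0, h 0 + h 1, …}` of the primes whose successive gaps are the entries of `h` -/
def pattern {k : ℕ} (h : Fin k → ℕ) : Finset ℕ :=
  (univ : Finset (Fin (k + 1))).image (fun i : Fin (k + 1) => ∑ j : Fin k, if (j : ℕ) < (i : ℕ) then h j else 0)

/-- the number of residue classes modulo `p` occupied by `T` -/
def nu (T : Finset ℕ) (p : ℕ) : ℕ := (T.image (· % p)).card

/-- the factor at `p` of the singular series -/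
noncomputable def loc (T : Finset ℕ) (p : ℕ) : ℝ :=
  (1 - (nu T p : ℝ) / p) / (1 - 1 / (p : ℝ)) ^ T.card

/-- the singular series of `T` -/
noncomputable def 𝔖 (T : Finset ℕ) : ℝ := ∏' p : Nat.Primes, loc T p

/-- the number of the strings of `k + 1` consecutive primes up to `x` whose vector of gaps is `h` -/
noncomputable def count {k : ℕ} (x : ℕ) (h : Fin k → ℕ) : ℕ :=
  Set.ncard {n : ℕ | Nat.nth Nat.Prime (n + k) ≤ x ∧
    ∀ i : Fin k, Nat.nth Nat.Prime (n + i + 1) = Nat.nth Nat.Prime (n + i) + h i}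

/-- The orders `π` of `k` gaps which are frequent at `x` (with the constants `K`, `c`, `M`): at least
`c (log x) ^ k` vectors `h` of `k` natural numbers satisfy

* `K log x ≤ h i ≤ M log x` for all `i`,
* `h` is ordered like `π`: `h i < h j` if and only if `π i < π j`,
* at least `c (1 + 𝔖 (pattern h)) x / (log x) ^ (k + 1)` strings of `k + 1` consecutive primes up to
  `x` have the vector of gaps `h`. -/
def frequentOrders (k : ℕ) (K c M : ℝ) (x : ℕ) : Set (Equiv.Perm (Fin k)) :=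
  {π | c * Real.log x ^ k ≤ (Set.ncard {h : Fin k → ℕ |
      (∀ i, K * Real.log x ≤ h i ∧ (h i : ℝ) ≤ M * Real.log x) ∧
      (∀ i j : Fin k, π i < π j ↔ h i < h j) ∧
      c * (1 + 𝔖 (pattern h)) * (x / Real.log x ^ (k + 1)) ≤ count x h} : ℝ)}

open Pool.Agent.H387R2 Pool.Agent.R527.LV Pool.Agent.E8helper24.PG

theorem count_eq {k : ℕ} (x : ℕ) (h : Fin k → ℕ) : count x h = cnt x h := by
  classical
  unfold count cnt
  rw [← Set.ncard_coe_finset]
  congr 1
  ext n
  simp only [Set.mem_ofPred_eq, coe_filter, mem_range]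
  constructor
  · rintro ⟨h1, h2⟩
    refine ⟨?_, h1, h2⟩
    have h3 : Nat.nth Nat.Prime n ≤ Nat.nth Nat.Prime (n + k) :=
      Nat.nth_monotone Nat.infinite_setOfPred_prime (by omega)
    by_contra hcon
    rw [not_lt] at hcon
    have h4 : Nat.count Nat.Prime (x + 1) ≤ n := by
      simpa [Nat.primeCounting, Nat.primeCounting'] using hcon
    have h5 : x + 1 ≤ Nat.nth Nat.Prime n :=
      (Nat.count_le_iff_le_nth Nat.infinite_setOfPred_prime).1 h4
    omega
  · rintro ⟨_, h1, h2⟩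
    exact ⟨h1, h2⟩

theorem main {k c₀ N₁ : ℕ} {lam : ℝ} (hlam : 1 ≤ lam) (hk : 1 ≤ k)
    (hc₀ : (c₀ : ℝ) ≤ k - 2 * k / lam) (hN₁ : (k : ℝ) + 1 ≤ ((N₁ + 1 : ℕ) : ℝ) / (40 * lam))
    (K : ℝ) : ∃ c : ℝ, 0 < c ∧ ∃ M : ℝ, ∃ x₀ : ℕ, ∀ x : ℕ, x₀ ≤ x →
      c₀.factorial ≤ (frequentOrders k K c M x).ncard * 2 ^ (k + N₁) := by
  classical
  obtain ⟨K', hK'⟩ : ∃ K' : ℝ, K' = max K 1 := ⟨_, rfl⟩
  have hKK' : K ≤ K' := hK' ▸ le_max_left _ _
  have hK'1 : 1 ≤ K' := hK' ▸ le_max_right _ _
  obtain ⟨c₁, hc₁, N₀, hidx⟩ := perm_idx hlam hk hc₀ hN₁ (2 * K') (by linarith)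
  obtain ⟨c, hc, M, x₀, hvec⟩ := vec_index k K' c₁ (by linarith) hc₁
  have hpi : ∀ᶠ x : ℕ in Filter.atTop, N₀ ≤ Nat.primeCounting x - k := by
    have h1 : Filter.Tendsto (fun x : ℕ => Nat.primeCounting x - k) Filter.atTop Filter.atTop := by
      have h2 := Nat.tendsto_primeCounting
      exact (Filter.tendsto_sub_atTop_nat k).comp h2
    exact h1.eventually_ge_atTop N₀
  obtain ⟨x₁, hx₁⟩ := Filter.eventually_atTop.1 hpi
  refine ⟨c, hc, max M 0, max (max x₀ x₁) 1, fun x hx => ?_⟩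
  have hx1 : 1 ≤ x := le_trans (le_max_right _ _) hx
  have hL : 0 ≤ Real.log (x : ℝ) := Real.log_nonneg (by exact_mod_cast hx1)
  refine (hidx (Nat.primeCounting x - k)
    (hx₁ x (((le_max_right _ _).trans (le_max_left _ _)).trans hx))).trans
    (Nat.mul_le_mul_right _ ?_)
  rw [← Set.ncard_coe_finset]
  refine Set.ncard_le_ncard ?_ (Set.toFinite _)
  intro π hπ
  rw [mem_coe] at hπ
  unfold PN at hπ
  have hπ' := (mem_filter_inst.1 hπ).2
  have hcast : ∀ l : ℕ, ((P (l + 1) - P l : ℕ) : ℝ) = gp' l := by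
    intro l
    have : P l ≤ P (l + 1) := P_strictMono.monotone (by omega)
    rw [Nat.cast_sub this]
    rfl
  have h1 := hvec x (((le_max_left _ _).trans (le_max_left _ _)).trans hx)
    (fun j => ∀ u v : Fin k, π u < π v ↔ gp' (j + u) < gp' (j + v))
    (fun h => ∀ i j : Fin k, π i < π j ↔ h i < h j) (by
      intro j hj u v
      have e1 : ((P (j + u + 1) - P (j + u) : ℕ) : ℝ) = gp' (j + u) := hcast _
      have e2 : ((P (j + v + 1) - P (j + v) : ℕ) : ℝ) = gp' (j + v) := hcast _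
      rw [hj u v, ← e1, ← e2]
      exact Nat.cast_lt) (by
      refine hπ'.trans ?_
      apply Nat.cast_le.2
      apply card_le_card
      intro m hm
      obtain ⟨hm1, hm2⟩ := mem_filter_inst.1 hm
      exact mem_filter_inst.2 ⟨hm1, hm2.1, hm2.2⟩)
  unfold frequentOrders
  rw [Set.mem_ofPred_eq]
  refine h1.trans ?_
  rw [← Set.ncard_coe_finset]
  have hfin : Set.Finite {h : Fin k → ℕ |
      (∀ i, K * Real.log x ≤ h i ∧ (h i : ℝ) ≤ max M 0 * Real.log x) ∧
      (∀ i j : Fin k, π i < π j ↔ h i < h j) ∧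
      c * (1 + 𝔖 (pattern h)) * (x / Real.log x ^ (k + 1)) ≤ count x h} := by
    apply (Fintype.piFinset (fun _ : Fin k => Finset.range (⌊max M 0 * Real.log x⌋₊ + 1))).finite_toSet.subset
    intro h hh
    rw [Set.mem_ofPred_eq] at hh
    rw [mem_coe, Fintype.mem_piFinset]
    intro i
    rw [mem_range, Nat.lt_succ_iff]
    exact Nat.le_floor (hh.1 i).2
  refine Nat.cast_le.2 (Set.ncard_le_ncard ?_ hfin)
  intro h hh
  obtain ⟨h2, ⟨h3, h4⟩, h5⟩ := mem_filter_inst.1 (mem_coe.1 hh)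
  rw [mem_box] at h2
  rw [Set.mem_ofPred_eq]
  refine ⟨fun i => ⟨?_, ?_⟩, h4, ?_⟩
  · exact (mul_le_mul_of_nonneg_right hKK' hL).trans (h3 i)
  · have h6 := (h2 i).2
    have h7 : (1 : ℕ) ≤ ⌊M * Real.log x⌋₊ := (h2 i).1.trans h6
    have h8 : 0 ≤ M * Real.log x := by
      by_contra hcon
      rw [not_le] at hcon
      rw [Nat.floor_of_nonpos hcon.le] at h7
      omega
    have h9 : (h i : ℝ) ≤ ⌊M * Real.log x⌋₊ := by exact_mod_cast h6
    exact (h9.trans (Nat.floor_le h8)).trans (mul_le_mul_of_nonneg_right (le_max_left _ _) hL)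
  · rw [count_eq]
    exact h5

/-- For every `k ≥ 1` and every real `K` there are `c > 0`, `M` and `x₀` such that for every `x ≥ x₀`
at least `k! exp (-150 k sqrt (log k))` of the `k!` orders of `k` gaps are frequent at `x`, see
`frequentOrders`. -/
theorem result (k : ℕ) (hk : 1 ≤ k) (K : ℝ) : ∃ c : ℝ, 0 < c ∧ ∃ M : ℝ, ∃ x₀ : ℕ, ∀ x : ℕ, x₀ ≤ x →
    (k.factorial : ℝ) * Real.exp (-(150 * k * Real.sqrt (Real.log k))) ≤
      (frequentOrders k K c M x).ncard := by
  have hk1 : (1 : ℝ) ≤ k := by exact_mod_cast hk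
  obtain ⟨lam, hlam⟩ : ∃ lam : ℝ, lam = 2 + Real.sqrt (Real.log k) := ⟨_, rfl⟩
  have hlam2 : 2 ≤ lam := by rw [hlam]; have := Real.sqrt_nonneg (Real.log k); linarith
  have h0 : 0 ≤ (k : ℝ) - 2 * k / lam := by
    have : 2 * k / lam ≤ (k : ℝ) := by
      rw [div_le_iff₀ (by linarith)]
      nlinarith
    linarith
  obtain ⟨c, hc, M, x₀, h⟩ := main (k := k) (c₀ := ⌊(k : ℝ) - 2 * k / lam⌋₊)
    (N₁ := ⌈40 * lam * ((k : ℝ) + 1)⌉₊) (lam := lam) (by linarith) hk (Nat.floor_le h0) (by
      rw [le_div_iff₀ (by linarith)]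
      have := Nat.le_ceil (40 * lam * ((k : ℝ) + 1))
      push_cast
      nlinarith) K
  refine ⟨c, hc, M, x₀, fun x hx => ?_⟩
  have h1 := h x hx
  rw [hlam] at h1
  exact explicit' hk h1

end Pool.Agent.Results.MP_3ec731_nt.FrequentOrdinalsH24
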