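import Pool.Agent.E8helper24.PG.ShapeMeas

set_option autoImplicit false

/-!
# A positive proportion of all points are frequent normalised vectors of consecutive prime gaps

For every `k` there is `κ > 0` such that for all `T, ε > 0` there are `c > 0` and `x₀` with: for every
`x ≥ x₀`, the set of the points `y` of the cube `[0, T] ^ k` which are frequent at `x` with precision
`ε` has measure at least `κ T ^ k`.  Here `y` is frequent at `x` with precision `ε` if at least
`c (log x) ^ k` vectors `h`, at distance at most `ε log x` from `(log x) y`, are the vector of `k`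
successive gaps of at least `c (1 + 𝔖 h) x / (log x) ^ (k + 1)` strings of consecutive primes up to `x`.
In the limit: the points of `[0, T] ^ k` which are frequent with every precision, at infinitely
many `x`, have measure at least `κ T ^ k`.

Method.  A positive proportion sieve theorem for short clusters of length `ε log x` at arbitrary given
positions with all other primes excluded, applied to every set of positions of a fixed size in a fine
grid; double counting of the shapes; the upper bound sieve with the second moment of the singular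
series; and the lemma of Fatou.
-/

open Finset MeasureTheory

namespace Pool.Agent.Results.MP_3ec731_nt.FrequentVectorsH24

/-- the pattern `{0, h 0, h 0 + h 1, …}` of the primes whose successive gaps are the entries of `h` -/
def pattern {k : ℕ} (h : Fin k → ℕ) : Finset ℕ :=
  (univ : Finset (Fin (k + 1))).image (fun i : Fin (k + 1) => ∑ j : Fin k, if (j : ℕ) < (i : ℕ) then h j else 0)

/-- the number of residue classes modulo `p` occupied by `T` -/
def nu (T : Finset ℕ) (p : ℕ) : ℕ := (T.image (· % p)).card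

/-- the factor at `p` of the singular series -/
noncomputable def loc (T : Finset ℕ) (p : ℕ) : ℝ :=
  (1 - (nu T p : ℝ) / p) / (1 - 1 / (p : ℝ)) ^ T.card

/-- the singular series of `T` -/
noncomputable def 𝔖 (T : Finset ℕ) : ℝ := ∏' p : Nat.Primes, loc T p

/-- the number of the strings of `k + 1` consecutive primes up to `x` whose vector of gaps is `h` -/
noncomputable def count {k : ℕ} (x : ℕ) (h : Fin k → ℕ) : ℕ :=
  Set.ncard {n : ℕ | Nat.nth Nat.Prime (n + k) ≤ x ∧
    ∀ i : Fin k, Nat.nth Nat.Prime (n + i + 1) = Nat.nth Nat.Prime (n + i) + h i}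

/-- The point `y` is frequent at `x` with precision `ε` (and with the constant `c`): at least
`c (log x) ^ k` vectors `h` of `k` natural numbers satisfy

* `|h i - y i log x| ≤ ε log x` for all `i`,
* at least `c (1 + 𝔖 (pattern h)) x / (log x) ^ (k + 1)` strings of `k + 1` consecutive primes up to
  `x` have the vector of gaps `h`. -/
def Frequent {k : ℕ} (ε c : ℝ) (x : ℕ) (y : Fin k → ℝ) : Prop :=
  c * Real.log x ^ k ≤ (Set.ncard {h : Fin k → ℕ |
      (∀ i, |(h i : ℝ) - y i * Real.log x| ≤ ε * Real.log x) ∧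
      c * (1 + 𝔖 (pattern h)) * (x / Real.log x ^ (k + 1)) ≤ count x h} : ℝ)

open Pool.Agent.H387R2 Pool.Agent.R527.LV Pool.Agent.E8helper24.PG

theorem count_eq {k : ℕ} (x : ℕ) (h : Fin k → ℕ) : count x h = cnt x h := by
  classical
  unfold count cnt
  rw [← Set.ncard_coe_finset]
  congr 1
  ext n
  simp only [Set.mem_ofPred_eq, coe_filter, mem_range]
  constructor
  · rintro ⟨h1, h2⟩
    refine ⟨?_, h1, h2⟩
    have h3 : Nat.nth Nat.Prime n ≤ Nat.nth Nat.Prime (n + k) :=
      Nat.nth_monotone Nat.infinite_setOfPred_prime (by omega)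
    by_contra hcon
    rw [not_lt] at hcon
    have h4 : Nat.count Nat.Prime (x + 1) ≤ n := by
      simpa [Nat.primeCounting, Nat.primeCounting'] using hcon
    have h5 : x + 1 ≤ Nat.nth Nat.Prime n :=
      (Nat.count_le_iff_le_nth Nat.infinite_setOfPred_prime).1 h4
    omega
  · rintro ⟨_, h1, h2⟩
    exact ⟨h1, h2⟩

theorem frequent_of {k : ℕ} {ε c : ℝ} {x : ℕ} {y : Fin k → ℝ} (h : FreqV k ε c x y) :
    Frequent ε c x y := by
  obtain ⟨F, h1, h2⟩ := h
  unfold Frequent
  refine h1.trans ?_
  rw [← Set.ncard_coe_finset]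
  have hL : 0 ≤ Real.log (x : ℝ) := Real.log_natCast_nonneg x
  have hfin : Set.Finite {h : Fin k → ℕ |
      (∀ i, |(h i : ℝ) - y i * Real.log x| ≤ ε * Real.log x) ∧
      c * (1 + 𝔖 (pattern h)) * (x / Real.log x ^ (k + 1)) ≤ count x h} := by
    apply (Fintype.piFinset (fun i : Fin k =>
      Finset.range (⌊(y i + ε) * Real.log x⌋₊ + 1))).finite_toSet.subset
    intro h hh
    rw [Set.mem_ofPred_eq] at hh
    rw [mem_coe, Fintype.mem_piFinset]
    intro i
    rw [mem_range, Nat.lt_succ_iff]
    apply Nat.le_floor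
    have := (abs_le.1 (hh.1 i)).2
    linarith
  refine Nat.cast_le.2 (Set.ncard_le_ncard ?_ hfin)
  intro h hh
  obtain ⟨h3, h4⟩ := h2 h (mem_coe.1 hh)
  refine ⟨h3, ?_⟩
  rw [count_eq]
  exact h4

/-- For every `k` there is `κ > 0` such that, for every `T > 0`:
(1) for every `ε > 0` there are `c > 0` and `x₀` such that for every `x ≥ x₀` the points of
`[0, T] ^ k` which are frequent at `x` with precision `ε` have measure at least `κ T ^ k`;
(2) the points `y` of `[0, T] ^ k` such that for every `ε > 0` there is `c > 0` for which `y` is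
frequent at infinitely many `x` with precision `ε` have measure at least `κ T ^ k`. -/
theorem result (k : ℕ) : ∃ κ : ℝ, 0 < κ ∧ ∀ T : ℝ, 0 < T →
    (∀ ε : ℝ, 0 < ε → ∃ c : ℝ, 0 < c ∧ ∃ x₀ : ℕ, ∀ x : ℕ, x₀ ≤ x →
      ENNReal.ofReal (κ * T ^ k) ≤
        volume {y : Fin k → ℝ | (∀ i, 0 ≤ y i ∧ y i ≤ T) ∧ Frequent ε c x y}) ∧
    ENNReal.ofReal (κ * T ^ k) ≤
      volume {y : Fin k → ℝ | (∀ i, 0 ≤ y i ∧ y i ≤ T) ∧
        ∀ ε : ℝ, 0 < ε → ∃ c : ℝ, 0 < c ∧ ∀ N : ℕ, ∃ x : ℕ, N ≤ x ∧ Frequent ε c x y} := by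
  obtain ⟨κ, hκ, h⟩ := freq_measure k
  have hcube : ∀ T : ℝ, ∀ y : Fin k → ℝ, y ∈ cube k T → ∀ i, 0 ≤ y i ∧ y i ≤ T := by
    intro T y hy i
    unfold cube at hy
    exact Set.mem_univ_pi.1 hy i
  refine ⟨κ, hκ, fun T hT => ⟨fun ε hε => ?_, ?_⟩⟩
  · obtain ⟨c, hc, x₀, hx₀⟩ := h T ε hT hε
    refine ⟨c, hc, x₀, fun x hx => (hx₀ x hx).trans (measure_mono ?_)⟩
    rintro y ⟨h1, h2⟩
    exact ⟨hcube T y h1, frequent_of h2⟩
  · refine (limit_measure h T hT).trans (measure_mono ?_)
    rintro y ⟨h1, h2⟩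
    refine ⟨hcube T y h1, fun ε hε => ?_⟩
    obtain ⟨c, hc, h3⟩ := h2 ε hε
    refine ⟨c, hc, fun N => ?_⟩
    obtain ⟨x, hx, h4⟩ := Filter.frequently_atTop.1 h3 N
    exact ⟨x, hx, frequent_of h4⟩

end Pool.Agent.Results.MP_3ec731_nt.FrequentVectorsH24
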