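import Mathlib
import Pool.Agent.E8helper66.CP.Fin

/-!
# MP_3ec731_nt: a prescribed gap next to a positive proportion of the gaps (partial result on Q1)

`Realised q a H` says that `H` is realised as a set of consecutive primes, dilated by `q` and with the
smallest prime in the class of `a` modulo `q`, infinitely often; for `q = 1` it is the property in
the question.

1. *Pairs of neighbouring gaps, one of them fixed.* There is an absolute constant `c > 0` such that for
   all coprime `q, a` there is a Bohr neighbourhood of `0` (a syndetic set) such that for all its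
   elements `d`, apart from a set of upper Banach density `0`, the numbers `g` for which `{0, g, g + d}`
   is realised have upper density at least `c`, and so have the numbers `g` for which `{0, d, d + g}` is
   realised.
2. *Boxes with one long side.* For every `k` there is `c > 0` such that for all `Y ≥ X ≥ X₀` at least
   `c Y X ^ k` patterns with a first gap at most `Y` followed by `k` gaps of total length at most `X`
   are realised; and the same with the long gap at the end. So for `k = 1` a positive proportion of the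
   pairs of gaps in *every* large box is realised.
3. *An explicit proportion.* For `k ≥ 2`, `ε > 0` and every finite set `V` with at least `n₀(k, ε)`
   elements which misses a class modulo every prime `p ≤ 8 k ^ 2 + 1` not dividing `q`, at
   least `(1 / C(8 k ^ 2, k) - ε) C(|V|, k + 1)` of the `(k + 1)`-element subsets of `V` are realised.

The constants do not depend on `q` and `a`. Earlier work: Maynard (Dense clusters of primes in subsets),
Banks-Freiberg-Turnage-Butterbaugh, Banks-Freiberg-Maynard, Pintz; the Bohr structure of single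
differences of primes and gaps (Huang-Wu, and starting results). The starting
results `ConsecutiveTuples` (MP_e87c7d_nt) and `TupleProportion` (MP_8923e7_nt) are related to part 3.
-/

set_option autoImplicit false

namespace Pool.Agent.Results.MP_3ec731_nt.GapPairsBohrH66

/-- for infinitely many `n ≡ a (mod q)` the numbers `n + q h`, `h ∈ H`, are exactly the primes between
the smallest and the largest of them -/
def Realised (q a : ℕ) (H : Finset ℕ) : Prop :=
  {n : ℕ | n ≡ a [MOD q] ∧ ∀ m : ℕ, (∃ h ∈ H, n + q * h ≤ m) → (∃ h ∈ H, m ≤ n + q * h) →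
    (m.Prime ↔ ∃ h ∈ H, m = n + q * h)}.Infinite

/-- the numbers `g` for which `{0, g, g + d}` is realised have upper density at least `c` -/
def DenseBefore (c : ℝ) (q a d : ℕ) : Prop := ∃ᶠ Y : ℕ in Filter.atTop,
  c * Y ≤ ({g : ℕ | 0 < g ∧ g ≤ Y ∧ Realised q a {0, g, g + d}}.ncard : ℝ)

/-- the numbers `g` for which `{0, d, d + g}` is realised have upper density at least `c` -/
def DenseAfter (c : ℝ) (q a d : ℕ) : Prop := ∃ᶠ Y : ℕ in Filter.atTop,
  c * Y ≤ ({g : ℕ | 0 < g ∧ g ≤ Y ∧ Realised q a {0, d, d + g}}.ncard : ℝ)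

/-- the realised patterns `0 = u 0 < u 1 < ... < u (k + 1)` with `u 1 ≤ Y` and
`u (k + 1) - u 1 ≤ X` -/
def LongFirst (q a k X Y : ℕ) : Set (Fin (k + 2) → ℕ) :=
  {u | StrictMono u ∧ u 0 = 0 ∧ u 1 ≤ Y ∧ u (Fin.last (k + 1)) ≤ u 1 + X ∧
    Realised q a (Finset.univ.image u)}

/-- the realised patterns `0 = u 0 < u 1 < ... < u (k + 1)` with `u k ≤ X` and
`u (k + 1) - u k ≤ Y` -/
def LongLast (q a k X Y : ℕ) : Set (Fin (k + 2) → ℕ) :=
  {u | StrictMono u ∧ u 0 = 0 ∧ u (Fin.last k).castSucc ≤ X ∧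
    u (Fin.last (k + 1)) ≤ u (Fin.last k).castSucc + Y ∧ Realised q a (Finset.univ.image u)}

theorem result :
    (∃ c : ℝ, 0 < c ∧ ∀ q a : ℕ, 1 ≤ q → Nat.Coprime a q →
      ∃ (Θ : Finset ℝ) (ρ : ℝ), 0 < ρ ∧
      (∃ L : ℕ, ∀ u : ℕ, ∃ d : ℕ, u < d ∧ d ≤ u + L ∧
        ∀ θ ∈ Θ, |(d : ℝ) * θ - round ((d : ℝ) * θ)| < ρ) ∧
      ∀ ε : ℝ, 0 < ε → ∃ L₀ : ℕ, ∀ L : ℕ, L₀ ≤ L → ∀ u : ℕ,
        ({d : ℕ | u < d ∧ d ≤ u + L ∧ (∀ θ ∈ Θ, |(d : ℝ) * θ - round ((d : ℝ) * θ)| < ρ) ∧
          ¬ (DenseBefore c q a d ∧ DenseAfter c q a d)}.ncard : ℝ) ≤ ε * L) ∧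
    (∀ k : ℕ, ∃ c : ℝ, 0 < c ∧ ∃ X₀ : ℕ, ∀ q a : ℕ, 1 ≤ q → Nat.Coprime a q →
      ∀ X Y : ℕ, X₀ ≤ X → X ≤ Y →
        c * (Y * X ^ k) ≤ ((LongFirst q a k X Y).ncard : ℝ) ∧
        c * (Y * X ^ k) ≤ ((LongLast q a k X Y).ncard : ℝ)) ∧
    (∀ k : ℕ, 2 ≤ k → ∀ ε : ℝ, 0 < ε → ∃ n₀ : ℕ, ∀ q a : ℕ, 1 ≤ q → Nat.Coprime a q →
      ∀ V : Finset ℕ,
        (∀ p, p.Prime → p ≤ 8 * k ^ 2 + 1 → ¬ p ∣ q → ∃ r : ℕ, ∀ v ∈ V, ¬ v ≡ r [MOD p]) →
        n₀ ≤ V.card →
        (1 / ((8 * k ^ 2).choose k : ℝ) - ε) * (V.card.choose (k + 1) : ℝ) ≤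
          ({H : Finset ℕ | H ⊆ V ∧ H.card = k + 1 ∧ Realised q a H}.ncard : ℝ)) := by
  classical
  refine ⟨Pool.Agent.E8helper66.CP.bohr, Pool.Agent.E8helper66.CP.box, fun k hk ε hε => ?_⟩
  obtain ⟨n₀, hn₀⟩ := Pool.Agent.E8helper66.CP.proportion k hk ε hε
  refine ⟨n₀, fun q a hq haq V hV hcard => ?_⟩
  have h := hn₀ q a hq haq V (fun p hpz hp hpq => hV p hp hpz hpq) hcard
  have hset : {H : Finset ℕ | H ⊆ V ∧ H.card = k + 1 ∧ Realised q a H} =
      (((V.powersetCard (k + 1)).filter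
        (fun H => Pool.Agent.E8helper66.CP.Realised q a H) : Finset (Finset ℕ)) :
          Set (Finset ℕ)) := by
    ext H
    simp only [Set.mem_setOf_eq, Finset.coe_filter, Finset.mem_powersetCard, and_assoc]
    exact Iff.rfl
  rw [hset, Set.ncard_coe_finset]
  convert h

end Pool.Agent.Results.MP_3ec731_nt.GapPairsBohrH66
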